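import Mathlib

/-!
# Composition of rational functions
-/

set_option autoImplicit false

open Polynomial

namespace Pool.Agent.Helper43.Pak

/-- homogenised evaluation -/
noncomputable def hz {R : Type*} [CommRing R] (n : ℕ) (f u v : R[X]) : R[X] :=
  ∑ j ∈ Finset.range (n + 1), C (f.coeff j) * u ^ j * v ^ (n - j)

lemma map_hz {R S : Type*} [CommRing R] [CommRing S] (φ : R →+* S) (n : ℕ) (f u v : R[X]) :
    (hz n f u v).map φ = hz n (f.map φ) (u.map φ) (v.map φ) := by
  simp [hz, Polynomial.map_sum, coeff_map]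

lemma algebraMap_hz {k L : Type*} [Field k] [Field L] [Algebra k[X] L] [Algebra k L]
    [IsScalarTower k k[X] L] (n : ℕ) (f u v : k[X]) (hf : f.natDegree ≤ n)
    (hv : algebraMap k[X] L v ≠ 0) :
    algebraMap k[X] L (hz n f u v) =
      algebraMap k[X] L v ^ n * aeval (algebraMap k[X] L u / algebraMap k[X] L v) f := by
  rw [hz, map_sum, aeval_eq_sum_range' (Nat.lt_succ_of_le hf), Finset.mul_sum]
  refine Finset.sum_congr rfl fun j hj => ?_
  have hj' : j ≤ n := Nat.lt_succ_iff.mp (Finset.mem_range.mp hj)
  have h1 : algebraMap k[X] L (C (f.coeff j)) = algebraMap k L (f.coeff j) := by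
    rw [IsScalarTower.algebraMap_apply k k[X] L]
    rfl
  rw [map_mul, map_mul, map_pow, map_pow, h1, Algebra.smul_def, div_pow]
  have h2 : algebraMap k[X] L v ^ n = algebraMap k[X] L v ^ (n - j) * algebraMap k[X] L v ^ j := by
    rw [← pow_add, Nat.sub_add_cancel hj']
  rw [h2]
  field_simp

/-- Wronskian -/
noncomputable def wr {R : Type*} [CommRing R] (P Q : R[X]) : R[X] :=
  derivative P * Q - P * derivative Q

lemma map_wr {R S : Type*} [CommRing R] [CommRing S] (φ : R →+* S) (P Q : R[X]) :
    (wr P Q).map φ = wr (P.map φ) (Q.map φ) := by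
  simp [wr, derivative_map]

lemma natDegree_wr_le {R : Type*} [CommRing R] {P Q : R[X]} {M : ℕ} (hP : P.natDegree ≤ M)
    (hQ : Q.natDegree ≤ M) : (wr P Q).natDegree ≤ 2 * M := by
  have h1 := natDegree_derivative_le P
  have h2 := natDegree_derivative_le Q
  have h3 : (derivative P * Q).natDegree ≤ 2 * M := natDegree_mul_le.trans (by omega)
  have h4 : (P * derivative Q).natDegree ≤ 2 * M := natDegree_mul_le.trans (by omega)
  exact (natDegree_sub_le _ _).trans (max_le h3 h4)

/-- coprime polynomials with vanishing Wronskian are constant -/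
lemma wr_ne_zero {k : Type*} [Field k] [CharZero k] {P Q : k[X]} (h : IsCoprime P Q)
    (hc : ¬ (P.natDegree = 0 ∧ Q.natDegree = 0)) : wr P Q ≠ 0 := by
  intro h0
  rw [wr, sub_eq_zero] at h0
  apply hc
  have key : ∀ R : k[X], R ∣ derivative R → R.natDegree = 0 := by
    intro R hR
    by_contra h1
    have h2 : derivative R ≠ 0 := by
      intro h3
      exact h1 (derivative_eq_zero.mp h3)
    have h4 := natDegree_le_of_dvd hR h2
    have h5 := natDegree_derivative_lt h1
    omega
  constructor
  · apply key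
    exact h.dvd_of_dvd_mul_right (Dvd.intro _ h0.symm)
  · apply key
    exact h.symm.dvd_of_dvd_mul_left (Dvd.intro_left _ h0)

end Pool.Agent.Helper43.Pak
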