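import Mathlib

/-!
# Derivations of fields and of rational functions
-/

set_option autoImplicit false

open Polynomial TensorProduct KaehlerDifferential

namespace Pool.Agent.Helper43.Pak

open scoped IntermediateField.algebraAdjoinAdjoin in
/-- a transcendental element has a derivation not killing it -/
theorem exists_derivation {F k : Type*} [Field F] [Field k] [Algebra F k] [CharZero F]
    {c : k} (hc : Transcendental F c) : ∃ D : Derivation F k k, D c = 1 := by
  classical
  have h1 : AlgebraicIndependent F ((↑) : ({c} : Set k) → k) := by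
    have : Subsingleton ({c} : Set k) := inferInstance
    rw [algebraicIndependent_singleton_iff (⟨c, rfl⟩ : ({c} : Set k))]
    exact hc
  obtain ⟨s, hs, hb⟩ := exists_isTranscendenceBasis_superset h1
  have hcs : c ∈ s := hs rfl
  let E := IntermediateField.adjoin F (Set.range ((↑) : s → k))
  let T := Algebra.adjoin F (Set.range ((↑) : s → k))
  have hTE : Algebra.FormallyEtale T E := .of_isLocalization (nonZeroDivisors _)
  have halg : Algebra.IsAlgebraic E k := hb.isAlgebraic_field
  have hsep : Algebra.IsSeparable E k := inferInstance
  have hEk : Algebra.FormallyEtale E k := Algebra.FormallyEtale.of_isSeparable _ _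
  have hTk : Algebra.FormallyEtale T k := .comp T E k
  let e := hb.1.aevalEquiv
  let i₀ : s := ⟨c, hcs⟩
  let DT : Derivation F T k := Derivation.mk'
    ((Algebra.linearMap T k).restrictScalars F ∘ₗ e.toLinearMap ∘ₗ
      (MvPolynomial.pderiv (R := F) i₀).toLinearMap ∘ₗ e.symm.toLinearMap) (by
    intro a b
    simp only [LinearMap.comp_apply, AlgEquiv.toLinearMap_apply, map_mul,
      Derivation.coeFn_coe, Derivation.leibniz, map_add,
      smul_eq_mul, AlgEquiv.apply_symm_apply, LinearMap.coe_restrictScalars,
      Algebra.linearMap_apply, Algebra.smul_def])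
  have hDT : DT (e (MvPolynomial.X i₀)) = 1 := by
    simp only [DT, Derivation.coe_mk', LinearMap.comp_apply, AlgEquiv.toLinearMap_apply,
      AlgEquiv.symm_apply_apply, Derivation.coeFn_coe,
      MvPolynomial.pderiv_X_self, map_one, LinearMap.coe_restrictScalars,
      Algebra.linearMap_apply]
  let g : Ω[k⁄F] →ₗ[k] k := (LinearMap.liftBaseChange k DT.liftKaehlerDifferential) ∘ₗ
    (tensorKaehlerEquivOfFormallyEtale F T k).symm.toLinearMap
  refine ⟨g.compDer (KaehlerDifferential.D F k), ?_⟩
  have h2 : algebraMap T k (e (MvPolynomial.X i₀)) = c := by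
    have := hb.1.algebraMap_aevalEquiv (MvPolynomial.X i₀)
    rw [this, MvPolynomial.aeval_X]
  change g (KaehlerDifferential.D F k c) = 1
  rw [← h2]
  simp only [g, LinearMap.comp_apply, LinearEquiv.coe_coe]
  rw [tensorKaehlerEquivOfFormallyEtale_symm_D_algebraMap, LinearMap.liftBaseChange_tmul,
    one_smul, Derivation.liftKaehlerDifferential_comp_D, hDT]

/-- extension of a derivation to the fraction field -/
theorem exists_extension {A L : Type*} [CommRing A] [IsDomain A] [Field L] [Algebra A L]
    [IsFractionRing A L] (d : Derivation ℤ A L) :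
    ∃ D : Derivation ℤ L L, ∀ a, D (algebraMap A L a) = d a := by
  let g : A →+* TrivSqZeroExt L L :=
    { toFun := fun a => TrivSqZeroExt.inl (algebraMap A L a) + TrivSqZeroExt.inr (d a)
      map_one' := by
        rw [map_one, d.map_one_eq_zero, TrivSqZeroExt.inr_zero, add_zero]; rfl
      map_zero' := by
        rw [map_zero, map_zero, TrivSqZeroExt.inr_zero, add_zero]; rfl
      map_add' := by
        intro a b
        rw [map_add, map_add, TrivSqZeroExt.inl_add, TrivSqZeroExt.inr_add]
        abel
      map_mul' := by
        intro a b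
        ext
        · simp
        · rw [Derivation.leibniz]
          simp only [map_mul, TrivSqZeroExt.snd_add, TrivSqZeroExt.snd_inl, TrivSqZeroExt.snd_inr,
            TrivSqZeroExt.snd_mul, TrivSqZeroExt.fst_add, TrivSqZeroExt.fst_inl,
            TrivSqZeroExt.fst_inr, Algebra.smul_def, MulOpposite.smul_eq_mul_unop,
            MulOpposite.unop_op, zero_add, add_zero, Algebra.algebraMap_self_apply]
          ring }
  have hg : ∀ y : nonZeroDivisors A, IsUnit (g y) := by
    intro y
    rw [TrivSqZeroExt.isUnit_iff_isUnit_fst]
    have : (g y).fst = algebraMap A L y := by simp [g]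
    rw [this]
    exact (IsLocalization.map_units L y)
  let G : L →+* TrivSqZeroExt L L := IsLocalization.lift hg
  have hG : ∀ a, G (algebraMap A L a) = g a := fun a => IsLocalization.lift_eq hg a
  have hfst : ∀ x, (G x).fst = x := by
    have h1 : (TrivSqZeroExt.fstHom L L L).toRingHom.comp G = RingHom.id L := by
      refine IsLocalization.ringHom_ext (nonZeroDivisors A) ?_
      ext a
      simp [hG, g]
    intro x
    exact congrArg (fun f : L →+* L => f x) h1
  refine ⟨Derivation.mk'
    ({ toFun := fun x => (G x).snd
       map_add' := fun x y => by rw [map_add, TrivSqZeroExt.snd_add]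
       map_smul' := fun n x => by
        rw [map_zsmul]; simp } : L →ₗ[ℤ] L) ?_, ?_⟩
  · intro a b
    change (G (a * b)).snd = _ • (G b).snd + _ • (G a).snd
    rw [map_mul, TrivSqZeroExt.snd_mul, hfst, hfst]
    simp only [smul_eq_mul, MulOpposite.smul_eq_mul_unop, MulOpposite.unop_op]
    ring
  · intro a
    change (G (algebraMap A L a)).snd = _
    rw [hG]
    simp [g]

/-- coefficientwise application of a derivation -/
noncomputable def mapD {k : Type*} [Field k] (δ : Derivation ℤ k k) : k[X] →+ k[X] :=
  { toFun := fun P => P.sum fun n a => monomial n (δ a)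
    map_zero' := by simp
    map_add' := fun P Q => Polynomial.sum_add_index P Q _ (by simp) (by simp) }

lemma mapD_monomial {k : Type*} [Field k] (δ : Derivation ℤ k k) (n : ℕ) (a : k) :
    mapD δ (monomial n a) = monomial n (δ a) := by
  change (monomial n a).sum (fun n a => monomial n (δ a)) = _
  rw [Polynomial.sum_monomial_index]
  simp

lemma coeff_mapD {k : Type*} [Field k] (δ : Derivation ℤ k k) (P : k[X]) (n : ℕ) :
    (mapD δ P).coeff n = δ (P.coeff n) := by
  induction P using Polynomial.induction_on' with
  | add P Q hP hQ => rw [map_add, coeff_add, coeff_add, map_add, hP, hQ]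
  | monomial m a =>
    rw [mapD_monomial, coeff_monomial, coeff_monomial]
    split_ifs
    · rfl
    · rw [map_zero]

lemma mapD_mul {k : Type*} [Field k] (δ : Derivation ℤ k k) (P Q : k[X]) :
    mapD δ (P * Q) = P * mapD δ Q + mapD δ P * Q := by
  induction P using Polynomial.induction_on' with
  | add P P' hP hP' => rw [add_mul, map_add, hP, hP', map_add]; ring
  | monomial m a =>
    induction Q using Polynomial.induction_on' with
    | add Q Q' hQ hQ' => rw [mul_add, map_add, hQ, hQ', map_add]; ring
    | monomial l b =>
      rw [monomial_mul_monomial, mapD_monomial, mapD_monomial, mapD_monomial,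
        monomial_mul_monomial, monomial_mul_monomial, Derivation.leibniz, smul_eq_mul,
        smul_eq_mul, map_add, mul_comm b (δ a)]

lemma natDegree_mapD_le {k : Type*} [Field k] (δ : Derivation ℤ k k) (P : k[X]) :
    (mapD δ P).natDegree ≤ P.natDegree := by
  rw [natDegree_le_iff_coeff_eq_zero]
  intro n hn
  rw [coeff_mapD, coeff_eq_zero_of_natDegree_lt hn, map_zero]

/-- derivative of the value of a polynomial -/
lemma deriv_aeval {k L : Type*} [Field k] [Field L] [Algebra k L] (δ : Derivation ℤ L L)
    (δ₀ : Derivation ℤ k k) (h : ∀ a, δ (algebraMap k L a) = algebraMap k L (δ₀ a)) (z : L)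
    (P : k[X]) : δ (aeval z P) = aeval z (mapD δ₀ P) + aeval z (derivative P) * δ z := by
  induction P using Polynomial.induction_on' with
  | add P Q hP hQ => simp only [map_add, hP, hQ]; ring
  | monomial m a =>
    rw [mapD_monomial, derivative_monomial, aeval_monomial, aeval_monomial, aeval_monomial,
      Derivation.leibniz, Derivation.leibniz_pow, h, map_mul, map_natCast]
    simp only [smul_eq_mul, nsmul_eq_mul]
    ring

end Pool.Agent.Helper43.Pak
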