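import Mathlib
import Pool.Agent.Helper43.Pak.Basic
import Pool.Agent.Helper43.Pak.Deriv

/-!
# The infinitesimal relation along a chain
-/

set_option autoImplicit false

open Polynomial

namespace Pool.Agent.Helper43.Pak

/-- numerator of the derivative of `P / Q` in the direction of `δ` -/
noncomputable def dw {K : Type*} [Field K] (δ : Derivation ℤ K K) (P Q : K[X]) : K[X] :=
  mapD δ P * Q - P * mapD δ Q

lemma natDegree_dw_le {K : Type*} [Field K] (δ : Derivation ℤ K K) {P Q : K[X]} {M : ℕ}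
    (hP : P.natDegree ≤ M) (hQ : Q.natDegree ≤ M) : (dw δ P Q).natDegree ≤ 2 * M := by
  have h1 := natDegree_mapD_le δ P
  have h2 := natDegree_mapD_le δ Q
  have h3 : (mapD δ P * Q).natDegree ≤ 2 * M := natDegree_mul_le.trans (by omega)
  have h4 : (P * mapD δ Q).natDegree ≤ 2 * M := natDegree_mul_le.trans (by omega)
  exact (natDegree_sub_le _ _).trans (max_le h3 h4)

section

variable {K L : Type*} [Field K] [Field L] [Algebra K[X] L] [IsFractionRing K[X] L]

/-- the two derivations of the field of rational functions -/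
lemma exists_two (δ : Derivation ℤ K K) : ∃ D₁ D₂ : Derivation ℤ L L,
    (∀ P : K[X], D₁ (algebraMap _ _ P) = algebraMap _ _ (derivative P)) ∧
    (∀ P : K[X], D₂ (algebraMap _ _ P) = algebraMap _ _ (mapD δ P)) := by
  obtain ⟨D₁, h₁⟩ := exists_extension (A := K[X]) (L := L) (Derivation.mk'
    (((algebraMap K[X] L).toAddMonoidHom.comp
      (derivative (R := K)).toAddMonoidHom).toIntLinearMap) (by
    intro a b
    change algebraMap K[X] L (derivative (a * b)) =
      a • algebraMap K[X] L (derivative b) +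
      b • algebraMap K[X] L (derivative a)
    rw [derivative_mul, map_add, map_mul, map_mul, Algebra.smul_def, Algebra.smul_def]
    ring))
  obtain ⟨D₂, h₂⟩ := exists_extension (A := K[X]) (L := L) (Derivation.mk'
    (((algebraMap K[X] L).toAddMonoidHom.comp (mapD δ)).toIntLinearMap) (by
    intro a b
    change algebraMap K[X] L (mapD δ (a * b)) =
      a • algebraMap K[X] L (mapD δ b) +
      b • algebraMap K[X] L (mapD δ a)
    rw [mapD_mul, map_add, map_mul, map_mul, Algebra.smul_def, Algebra.smul_def]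
    ring))
  exact ⟨D₁, D₂, fun P => h₁ P, fun P => h₂ P⟩

variable [Algebra K L]

omit [Algebra K[X] L] [IsFractionRing K[X] L] in
/-- derivative of a quotient of polynomials at a point -/
lemma deriv_quot (D : Derivation ℤ L L) (δ : Derivation ℤ K K)
    (h : ∀ a, D (algebraMap K L a) = algebraMap K L (δ a)) (y : L)
    (P Q : K[X]) (hQ : aeval y Q ≠ 0) :
    D (aeval y P / aeval y Q) = (aeval y (dw δ P Q) + aeval y (wr P Q) * D y) / aeval y Q ^ 2 := by
  rw [Derivation.leibniz_div, deriv_aeval D δ h, deriv_aeval D δ h, dw, wr]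
  simp only [smul_eq_mul, map_sub, map_mul]
  field_simp
  ring

variable [IsScalarTower K K[X] L] [CharZero K] [Algebra ℂ K]

/-- the relation between two consecutive members of a chain -/
theorem rel_step (δ : Derivation ℤ K K) (hδ : ∀ a : ℂ, δ (algebraMap ℂ K a) = 0)
    (b₁ b₂ : ℂ[X]) (y : L)
    (hy : y = algebraMap K[X] L (b₁.map (algebraMap ℂ K)) /
      algebraMap K[X] L (b₂.map (algebraMap ℂ K)))
    (hb₂ : b₂ ≠ 0) (hyt : Transcendental K y) (F₁ F₂ : K[X])
    (hF₁ : mapD δ F₁ = 0) (hF₂' : mapD δ F₂ = 0) (hF₂ : F₂ ≠ 0)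
    (P Q P' Q' : K[X]) (hQ : Q ≠ 0) (hQ' : Q' ≠ 0)
    (hw' : Transcendental K (algebraMap K[X] L P' / algebraMap K[X] L Q'))
    (hwr : wr P Q ≠ 0) (hwrb : wr b₁ b₂ ≠ 0)
    (hrel : aeval y P / aeval y Q =
      aeval (algebraMap K[X] L P' / algebraMap K[X] L Q') F₁ /
      aeval (algebraMap K[X] L P' / algebraMap K[X] L Q') F₂) :
    aeval y (wr P Q) * algebraMap K[X] L
        (dw δ P' Q' * wr (b₁.map (algebraMap ℂ K)) (b₂.map (algebraMap ℂ K))) =
      aeval y (dw δ P Q) * algebraMap K[X] L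
        (wr P' Q' * (b₂.map (algebraMap ℂ K)) ^ 2) ∧
    (dw δ P Q ≠ 0 → dw δ P' Q' ≠ 0) := by
  obtain ⟨D₁, D₂, h₁, h₂⟩ := exists_two (L := L) δ
  have hinj : Function.Injective (algebraMap K[X] L) := IsFractionRing.injective K[X] L
  have hKC : ∀ a : K, algebraMap K L a = algebraMap K[X] L (C a) := fun a => by
    rw [IsScalarTower.algebraMap_apply K K[X] L]; rfl
  have hc₁ : ∀ a, D₁ (algebraMap K L a) = algebraMap K L ((0 : Derivation ℤ K K) a) := by
    intro a
    rw [hKC, h₁, derivative_C, map_zero, Derivation.zero_apply, map_zero]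
  have hc₂ : ∀ a, D₂ (algebraMap K L a) = algebraMap K L (δ a) := by
    intro a
    rw [hKC, h₂, ← monomial_zero_left, mapD_monomial, monomial_zero_left, hKC]
  have hmap0 : ∀ P : K[X], mapD (0 : Derivation ℤ K K) P = 0 := by
    intro P
    ext n
    rw [coeff_mapD, Derivation.zero_apply, coeff_zero]
  have hmapδ : ∀ b : ℂ[X], mapD δ (b.map (algebraMap ℂ K)) = 0 := by
    intro b
    ext n
    rw [coeff_mapD, coeff_map, hδ, coeff_zero]
  have hdw0 : ∀ P Q : K[X], dw (0 : Derivation ℤ K K) P Q = 0 := by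
    intro P Q
    rw [dw, hmap0, hmap0, zero_mul, mul_zero, sub_zero]
  set B₁ := b₁.map (algebraMap ℂ K) with hB₁
  set B₂ := b₂.map (algebraMap ℂ K) with hB₂
  have hB₂0 : B₂ ≠ 0 := (Polynomial.map_ne_zero_iff (algebraMap ℂ K).injective).mpr hb₂
  have hβ₂ : algebraMap K[X] L B₂ ≠ 0 := by
    rw [Ne, map_eq_zero_iff _ hinj]; exact hB₂0
  have hq' : algebraMap K[X] L Q' ≠ 0 := by
    rw [Ne, map_eq_zero_iff _ hinj]; exact hQ'
  -- derivatives of a quotient of polynomials
  have hquot₁ : ∀ P Q : K[X], algebraMap K[X] L Q ≠ 0 →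
      D₁ (algebraMap K[X] L P / algebraMap K[X] L Q) =
        algebraMap K[X] L (wr P Q) / algebraMap K[X] L Q ^ 2 := by
    intro P Q hQ
    rw [Derivation.leibniz_div, h₁, h₁, wr]
    simp only [smul_eq_mul, map_sub, map_mul]
    field_simp
  have hquot₂ : ∀ P Q : K[X], algebraMap K[X] L Q ≠ 0 →
      D₂ (algebraMap K[X] L P / algebraMap K[X] L Q) =
        algebraMap K[X] L (dw δ P Q) / algebraMap K[X] L Q ^ 2 := by
    intro P Q hQ
    rw [Derivation.leibniz_div, h₂, h₂, dw]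
    simp only [smul_eq_mul, map_sub, map_mul]
    field_simp
  have hDy₁ : D₁ y = algebraMap K[X] L (wr B₁ B₂) / algebraMap K[X] L B₂ ^ 2 := by
    rw [hy, hquot₁ _ _ hβ₂]
  have hDy₂ : D₂ y = 0 := by
    rw [hy, hquot₂ _ _ hβ₂, dw, hB₁, hB₂, hmapδ, hmapδ]
    simp
  set w := algebraMap K[X] L P' / algebraMap K[X] L Q' with hw
  have hne : ∀ {z : L}, Transcendental K z → ∀ R : K[X], R ≠ 0 → aeval z R ≠ 0 := by
    intro z hz R hR h0
    exact hR (transcendental_iff.mp hz R h0)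
  have hwF₂ : aeval w F₂ ≠ 0 := hne hw' _ hF₂
  have hyQ : aeval y Q ≠ 0 := hne hyt _ hQ
  have hdF : dw δ F₁ F₂ = 0 := by rw [dw, hF₁, hF₂', zero_mul, mul_zero, sub_zero]
  have e₁ : aeval y (wr P Q) * D₁ y / aeval y Q ^ 2 =
      aeval w (wr F₁ F₂) / aeval w F₂ ^ 2 * (algebraMap K[X] L (wr P' Q') /
        algebraMap K[X] L Q' ^ 2) := by
    have h3 := deriv_quot D₁ 0 hc₁ y P Q hyQ
    have h4 := deriv_quot D₁ 0 hc₁ w F₁ F₂ hwF₂
    rw [hdw0, map_zero, zero_add] at h3 h4
    rw [hrel, h4, hw, hquot₁ _ _ hq'] at h3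
    rw [← h3]
    ring
  have e₂ : aeval y (dw δ P Q) / aeval y Q ^ 2 =
      aeval w (wr F₁ F₂) / aeval w F₂ ^ 2 * (algebraMap K[X] L (dw δ P' Q') /
        algebraMap K[X] L Q' ^ 2) := by
    have h3 := deriv_quot D₂ δ hc₂ y P Q hyQ
    have h4 := deriv_quot D₂ δ hc₂ w F₁ F₂ hwF₂
    rw [hdF, map_zero, zero_add] at h4
    rw [hDy₂, mul_zero, add_zero] at h3
    rw [hrel, h4, hw, hquot₂ _ _ hq'] at h3
    rw [← h3]
    ring
  have hwB : algebraMap K[X] L (wr B₁ B₂) ≠ 0 := by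
    rw [Ne, map_eq_zero_iff _ hinj, hB₁, hB₂, ← map_wr,
      ← Ne, Polynomial.map_ne_zero_iff (algebraMap ℂ K).injective]
    exact hwrb
  have hWy : aeval y (wr P Q) ≠ 0 := hne hyt _ hwr
  rw [hDy₁] at e₁
  set G := aeval w (wr F₁ F₂) / aeval w F₂ ^ 2 with hG
  have hG0 : G ≠ 0 := by
    intro h0
    rw [h0, zero_mul] at e₁
    have : aeval y (wr P Q) * (algebraMap K[X] L (wr B₁ B₂) / algebraMap K[X] L B₂ ^ 2) /
        aeval y Q ^ 2 ≠ 0 :=
      div_ne_zero (mul_ne_zero hWy (div_ne_zero hwB (pow_ne_zero _ hβ₂))) (pow_ne_zero _ hyQ)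
    exact this e₁
  constructor
  · rw [map_mul, map_mul, map_pow]
    refine mul_left_cancel₀ hG0 ?_
    have f₁ : aeval y (wr P Q) * algebraMap K[X] L (wr B₁ B₂) =
        G * (algebraMap K[X] L (wr P' Q') / algebraMap K[X] L Q' ^ 2) *
          (aeval y Q ^ 2 * algebraMap K[X] L B₂ ^ 2) := by
      rw [← e₁]
      field_simp
    have f₂ : G * (algebraMap K[X] L (dw δ P' Q') / algebraMap K[X] L Q' ^ 2) *
        aeval y Q ^ 2 = aeval y (dw δ P Q) := by
      rw [← e₂]
      field_simp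
    calc G * (aeval y (wr P Q) * (algebraMap K[X] L (dw δ P' Q') * algebraMap K[X] L (wr B₁ B₂)))
        = G * algebraMap K[X] L (dw δ P' Q') *
          (aeval y (wr P Q) * algebraMap K[X] L (wr B₁ B₂)) := by ring
      _ = G * algebraMap K[X] L (dw δ P' Q') *
          (G * (algebraMap K[X] L (wr P' Q') / algebraMap K[X] L Q' ^ 2) *
          (aeval y Q ^ 2 * algebraMap K[X] L B₂ ^ 2)) := by rw [f₁]
      _ = G * ((G * (algebraMap K[X] L (dw δ P' Q') / algebraMap K[X] L Q' ^ 2) *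
            aeval y Q ^ 2) * (algebraMap K[X] L (wr P' Q') * algebraMap K[X] L B₂ ^ 2)) := by
          field_simp
      _ = _ := by rw [f₂]
  · intro hd h0
    rw [h0, map_zero, zero_div, mul_zero] at e₂
    have : aeval y (dw δ P Q) / aeval y Q ^ 2 ≠ 0 :=
      div_ne_zero (hne hyt _ hd) (pow_ne_zero _ hyQ)
    exact this e₂

end

end Pool.Agent.Helper43.Pak
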