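import Mathlib
import Pool.Agent.Helper43.Pak.Rel

/-!
# A derivation moving a rational function which is not defined over `ℂ`
-/

set_option autoImplicit false

open Polynomial

namespace Pool.Agent.Helper43.Pak

variable {K : Type*} [Field K] [Algebra ℂ K]

lemma natDegree_mapD_lt {δ : Derivation ℤ K K} {q : K[X]} (hq : q.Monic) :
    (mapD δ q).degree < q.degree := by
  have hq0 : q ≠ 0 := hq.ne_zero
  rw [degree_eq_natDegree hq0, degree_lt_iff_coeff_zero]
  intro n hn
  rw [coeff_mapD]
  rcases hn.eq_or_lt with h | h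
  · rw [← h, hq.coeff_natDegree, Derivation.map_one_eq_zero]
  · rw [coeff_eq_zero_of_natDegree_lt h, map_zero]

theorem exists_dw_ne_zero (P Q : K[X]) (hQ : Q ≠ 0)
    (h : ∀ f₁ f₂ : ℂ[X], f₂ ≠ 0 →
      P * f₂.map (algebraMap ℂ K) ≠ Q * f₁.map (algebraMap ℂ K)) :
    ∃ δ : Derivation ℤ K K, (∀ a : ℂ, δ (algebraMap ℂ K a) = 0) ∧ dw δ P Q ≠ 0 := by
  classical
  let x : RatFunc K := algebraMap K[X] (RatFunc K) P / algebraMap K[X] (RatFunc K) Q
  set p := x.num with hp
  set q := x.denom with hq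
  have hqm : q.Monic := RatFunc.monic_denom x
  have hcop : IsCoprime p q := RatFunc.isCoprime_num_denom x
  have hinj : Function.Injective (algebraMap K[X] (RatFunc K)) :=
    IsFractionRing.injective K[X] (RatFunc K)
  have hQ' : algebraMap K[X] (RatFunc K) Q ≠ 0 := by
    rw [Ne, map_eq_zero_iff _ hinj]; exact hQ
  have hq' : algebraMap K[X] (RatFunc K) q ≠ 0 := by
    rw [Ne, map_eq_zero_iff _ hinj]; exact hqm.ne_zero
  have hcross : P * q = p * Q := by
    apply hinj
    have h1 : algebraMap K[X] (RatFunc K) p / algebraMap K[X] (RatFunc K) q = x :=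
      RatFunc.num_div_denom x
    change _ = algebraMap K[X] (RatFunc K) P / algebraMap K[X] (RatFunc K) Q at h1
    rw [div_eq_div_iff hq' hQ'] at h1
    rw [map_mul, map_mul]
    exact h1.symm
  obtain ⟨g, hg⟩ : q ∣ Q := hcop.symm.dvd_of_dvd_mul_left (Dvd.intro_left _ hcross)
  have hP : P = p * g := by
    have h1 : P * q = (p * g) * q := by rw [hcross, hg]; ring
    exact mul_right_cancel₀ hqm.ne_zero h1
  have hg0 : g ≠ 0 := by
    rintro rfl
    rw [mul_zero] at hg
    exact hQ hg
  -- a coefficient which is not a constant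
  obtain ⟨c, hc, hc'⟩ : ∃ c : K, (c ∉ (algebraMap ℂ K).range) ∧
      ∃ n, p.coeff n = c ∨ q.coeff n = c := by
    by_contra hcon
    push Not at hcon
    have h1 : ∀ n, p.coeff n ∈ (algebraMap ℂ K).range := fun n => by
      by_contra h2
      exact (hcon _ h2 n).1 rfl
    have h2 : ∀ n, q.coeff n ∈ (algebraMap ℂ K).range := fun n => by
      by_contra h2
      exact (hcon _ h2 n).2 rfl
    obtain ⟨p', hp'⟩ := (mem_map_range (algebraMap ℂ K)).mpr h1
    obtain ⟨q', hq''⟩ := (mem_map_range (algebraMap ℂ K)).mpr h2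
    have hq0 : q' ≠ 0 := by
      rintro rfl
      rw [map_zero] at hq''
      exact hqm.ne_zero hq''.symm
    refine h p' q' hq0 ?_
    change mapRingHom (algebraMap ℂ K) p' = p at hp'
    change mapRingHom (algebraMap ℂ K) q' = q at hq''
    rw [coe_mapRingHom] at hp' hq''
    rw [hp', hq'', hP, hg]
    ring
  have htr : Transcendental ℂ c := by
    intro halg
    apply hc
    have h1 : IsIntegral ℂ c := halg.isIntegral
    have h2 := IsAlgClosed.degree_eq_one_of_irreducible ℂ (minpoly.irreducible h1)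
    obtain ⟨a, ha⟩ := minpoly.mem_range_of_degree_eq_one ℂ c h2
    exact ⟨a, ha⟩
  obtain ⟨D, hD⟩ := exists_derivation htr
  refine ⟨D.restrictScalars ℤ, fun a => D.map_algebraMap a, fun h0 => ?_⟩
  set δ : Derivation ℤ K K := D.restrictScalars ℤ with hδ
  have hδc : δ c = 1 := hD
  have h1 : g ^ 2 * (mapD δ p * q - p * mapD δ q) = 0 := by
    rw [← h0, dw, hP, hg, mapD_mul, mapD_mul]
    ring
  have h2 : mapD δ p * q = p * mapD δ q :=
    sub_eq_zero.mp ((mul_eq_zero.mp h1).resolve_left (pow_ne_zero _ hg0))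
  have h3 : q ∣ mapD δ q := hcop.symm.dvd_of_dvd_mul_left (Dvd.intro_left _ h2)
  have h4 : mapD δ q = 0 := eq_zero_of_dvd_of_degree_lt h3 (natDegree_mapD_lt hqm)
  have h5 : mapD δ p = 0 := by
    rw [h4, mul_zero] at h2
    exact (mul_eq_zero.mp h2).resolve_right hqm.ne_zero
  obtain ⟨n, hn | hn⟩ := hc'
  · have := congrArg (fun f => coeff f n) h5
    simp only [coeff_mapD, coeff_zero, hn, hδc] at this
    exact one_ne_zero this
  · have := congrArg (fun f => coeff f n) h4
    simp only [coeff_mapD, coeff_zero, hn, hδc] at this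
    exact one_ne_zero this

end Pool.Agent.Helper43.Pak
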