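import Mathlib

/-!
# An algebraically closed ultrapower of the complex numbers
-/

set_option autoImplicit false

open Polynomial Filter

namespace Pool.Agent.Helper43.Pak

/-- an algebraically closed field containing an ultrapower of `ℂ` -/
theorem exists_ultra : ∃ (K : Type) (_ : Field K) (_ : IsAlgClosed K) (_ : CharZero K)
    (_ : Algebra ℂ K) (ρ : (ℕ → ℂ) →+* K), (∀ a : ℂ, ρ (fun _ => a) = algebraMap ℂ K a) ∧
      ∀ f : ℕ → ℂ, ρ f = 0 ↔ ∀ᶠ m in (hyperfilter ℕ : Filter ℕ), f m = 0 := by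
  let K₀ := Germ (hyperfilter ℕ : Filter ℕ) ℂ
  let π : (ℕ → ℂ) →+* K₀ := Germ.coeRingHom _
  let _ : Algebra ℂ K₀ := (π.comp (Pi.constRingHom ℕ ℂ)).toAlgebra
  have hchar : CharZero K₀ := charZero_of_injective_algebraMap (algebraMap ℂ K₀).injective
  have hchar' : CharZero (AlgebraicClosure K₀) :=
    charZero_of_injective_algebraMap (algebraMap K₀ (AlgebraicClosure K₀)).injective
  refine ⟨AlgebraicClosure K₀, inferInstance, inferInstance, hchar', inferInstance,
    (algebraMap K₀ (AlgebraicClosure K₀)).comp π, ?_, ?_⟩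
  · intro a
    rw [IsScalarTower.algebraMap_apply ℂ K₀ (AlgebraicClosure K₀)]
    rfl
  · intro f
    rw [RingHom.comp_apply, map_eq_zero]
    exact Germ.coe_eq

variable {K : Type*} [Field K] (ρ : (ℕ → ℂ) →+* K)

lemma map_eq_zero_iff_eventually
    (hρ : ∀ f : ℕ → ℂ, ρ f = 0 ↔ ∀ᶠ m in (hyperfilter ℕ : Filter ℕ), f m = 0)
    (T : (ℕ → ℂ)[X]) : T.map ρ = 0 ↔
      ∀ᶠ m in (hyperfilter ℕ : Filter ℕ), T.map (Pi.evalRingHom (fun _ => ℂ) m) = 0 := by
  constructor
  · intro h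
    have h1 : ∀ n ∈ T.support, ∀ᶠ m in (hyperfilter ℕ : Filter ℕ), T.coeff n m = 0 := by
      intro n _
      rw [← hρ, ← coeff_map, h, coeff_zero]
    have h2 := (Filter.eventually_all_finset T.support).mpr h1
    filter_upwards [h2] with m hm
    ext n
    rw [coeff_map, coeff_zero]
    by_cases hn : n ∈ T.support
    · exact hm n hn
    · rw [notMem_support_iff.mp hn, map_zero]
  · intro h
    ext n
    rw [coeff_map, coeff_zero, hρ]
    filter_upwards [h] with m hm
    have := congrArg (fun p => coeff p n) hm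
    simpa [coeff_map] using this

lemma exists_eventually_eq {r : ℕ → ℕ} {R : ℕ} (hr : ∀ m, r m ≤ R) (i : ℕ) :
    ∃ j, ∀ᶠ m in (hyperfilter ℕ : Filter ℕ), r (m + i) = j := by
  have h1 : ∀ᶠ m in (hyperfilter ℕ : Filter ℕ), ∃ j ∈ Finset.range (R + 1), r (m + i) = j := by
    filter_upwards with m
    exact ⟨_, Finset.mem_range.mpr (Nat.lt_succ_of_le (hr _)), rfl⟩
  have h2 : ∃ j ∈ ((Finset.range (R + 1) : Finset ℕ) : Set ℕ),
      ∀ᶠ m in (hyperfilter ℕ : Filter ℕ), r (m + i) = j :=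
    (Ultrafilter.eventually_exists_mem_iff (Finset.finite_toSet _)).mp h1
  obtain ⟨j, _, hj⟩ := h2
  exact ⟨j, hj⟩

end Pool.Agent.Helper43.Pak
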