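import Mathlib
import Pool.Agent.Helper63.Pak.Defs
import Pool.Agent.Helper43.Pak.Gen
import Pool.Agent.Helper43.Pak.Ultra

/-!
# The chain lemma: reduction to a sequence of forms
-/

set_option autoImplicit false

open Polynomial Filter

namespace Pool.Agent.Helper43.Pak

open Pool.Agent.Helper63.Pak (rdeg comp iter)

section

variable {K : Type*} [Field K]

lemma algebraMap_ne_zero' {P : K[X]} (hP : P ≠ 0) : algebraMap K[X] (RatFunc K) P ≠ 0 := by
  rw [Ne, map_eq_zero_iff _ (IsFractionRing.injective K[X] (RatFunc K))]; exact hP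

lemma transcendental_of_wr {P Q : K[X]} (h : wr P Q ≠ 0) :
    Transcendental K (algebraMap K[X] (RatFunc K) P / algebraMap K[X] (RatFunc K) Q) := by
  have hQ : Q ≠ 0 := by
    rintro rfl
    apply h
    simp [wr]
  refine RatFunc.transcendental_of_ne_C _ ?_
  rintro ⟨c, hc⟩
  rw [div_eq_iff (algebraMap_ne_zero' hQ)] at hc
  have h1 : P = C c * Q := by
    apply IsFractionRing.injective K[X] (RatFunc K)
    rw [hc, map_mul, RatFunc.algebraMap_C]
  apply h
  rw [h1, wr, derivative_mul, derivative_C]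
  ring

lemma aeval_ne_zero {y : RatFunc K} (hy : Transcendental K y) {P : K[X]} (hP : P ≠ 0) :
    aeval y P ≠ 0 := fun h0 => hP (transcendental_iff.mp hy P h0)

end

lemma wr_num_denom {U : RatFunc ℂ} (hU : 1 ≤ rdeg U) : wr U.num U.denom ≠ 0 := by
  refine wr_ne_zero (RatFunc.isCoprime_num_denom U) ?_
  rintro ⟨h1, h2⟩
  rw [rdeg, h1, h2] at hU
  simp at hU

lemma comp_eq (U G : RatFunc ℂ) : comp U G = aeval G U.num / aeval G U.denom := rfl

/-- homogeneous form of an identity between compositions -/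
lemma hz_of_comp {U B F V : RatFunc ℂ} {n e : ℕ} (hB : 1 ≤ rdeg B) (hV : 1 ≤ rdeg V)
    (hU : rdeg U ≤ n) (hF : rdeg F ≤ e) (h : comp U B = comp F V) :
    hz n U.num B.num B.denom * hz e F.denom V.num V.denom =
      hz n U.denom B.num B.denom * hz e F.num V.num V.denom := by
  have hinj := IsFractionRing.injective ℂ[X] (RatFunc ℂ)
  apply hinj
  have tr : ∀ {G : RatFunc ℂ}, 1 ≤ rdeg G → Transcendental ℂ G := by
    intro G hG
    have := transcendental_of_wr (wr_num_denom hG)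
    rwa [RatFunc.num_div_denom] at this
  have hBd : algebraMap ℂ[X] (RatFunc ℂ) B.denom ≠ 0 := algebraMap_ne_zero' B.denom_ne_zero
  have hVd : algebraMap ℂ[X] (RatFunc ℂ) V.denom ≠ 0 := algebraMap_ne_zero' V.denom_ne_zero
  have hUn : U.num.natDegree ≤ n := (le_max_left _ _).trans hU
  have hUd : U.denom.natDegree ≤ n := (le_max_right _ _).trans hU
  have hFn : F.num.natDegree ≤ e := (le_max_left _ _).trans hF
  have hFd : F.denom.natDegree ≤ e := (le_max_right _ _).trans hF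
  rw [map_mul, map_mul, algebraMap_hz _ _ _ _ hUn hBd, algebraMap_hz _ _ _ _ hUd hBd,
    algebraMap_hz _ _ _ _ hFn hVd, algebraMap_hz _ _ _ _ hFd hVd,
    RatFunc.num_div_denom, RatFunc.num_div_denom]
  rw [comp_eq, comp_eq, div_eq_div_iff (aeval_ne_zero (tr hB) U.denom_ne_zero)
    (aeval_ne_zero (tr hV) F.denom_ne_zero)] at h
  linear_combination (algebraMap ℂ[X] (RatFunc ℂ) B.denom ^ n *
    algebraMap ℂ[X] (RatFunc ℂ) V.denom ^ e) * h

/-- the sequence of polynomials over the ring of sequences -/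
noncomputable def seqPoly (M : ℕ) (f : ℕ → ℂ[X]) (i : ℕ) : (ℕ → ℂ)[X] :=
  ∑ j ∈ Finset.range (M + 1), monomial j (fun m => (f (m + i)).coeff j)

lemma seqPoly_map {M : ℕ} {f : ℕ → ℂ[X]} (hf : ∀ m, (f m).natDegree ≤ M) (i m : ℕ) :
    (seqPoly M f i).map (Pi.evalRingHom (fun _ => ℂ) m) = f (m + i) := by
  rw [seqPoly, Polynomial.map_sum]
  conv_rhs => rw [as_sum_range' (f (m + i)) (M + 1) (Nat.lt_succ_of_le (hf _))]
  refine Finset.sum_congr rfl fun j _ => ?_
  rw [map_monomial]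
  rfl

lemma natDegree_seqPoly_map {K : Type*} [Field K] (ρ : (ℕ → ℂ) →+* K) (M : ℕ) (f : ℕ → ℂ[X])
    (i : ℕ) : ((seqPoly M f i).map ρ).natDegree ≤ M := by
  rw [seqPoly, Polynomial.map_sum]
  refine natDegree_sum_le_of_forall_le _ _ fun j hj => ?_
  rw [map_monomial]
  exact (natDegree_monomial_le _).trans (Nat.lt_succ_iff.mp (Finset.mem_range.mp hj))

lemma const_map {K : Type*} [Field K] [Algebra ℂ K] (ρ : (ℕ → ℂ) →+* K)
    (hρ : ∀ a : ℂ, ρ (fun _ => a) = algebraMap ℂ K a) (f : ℂ[X]) :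
    (f.map (Pi.constRingHom ℕ ℂ)).map ρ = f.map (algebraMap ℂ K) := by
  ext n
  rw [coeff_map, coeff_map, coeff_map, ← hρ]
  rfl

lemma const_map_eval (f : ℂ[X]) (m : ℕ) :
    (f.map (Pi.constRingHom ℕ ℂ)).map (Pi.evalRingHom (fun _ => ℂ) m) = f := by
  ext n
  rw [coeff_map, coeff_map]
  rfl

theorem exists_forms (A B : RatFunc ℂ) (hB : 2 ≤ rdeg B) (V : ℕ → RatFunc ℂ) (r : ℕ → ℕ)
    (M R : ℕ) (hV : ∀ m, rdeg (V m) ≤ M) (hVc : ∀ m, 1 ≤ rdeg (V m)) (hr : ∀ m, r m ≤ R)
    (h : ∀ m, comp (V m) B = comp (iter A (r m)) (V (m + 1)))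
    (hne : ∀ m m', m < m' → V m ≠ V m') :
    ∃ (K : Type) (_ : Field K) (_ : IsAlgClosed K) (_ : CharZero K) (_ : Algebra ℂ K)
      (W N : ℕ → K[X]), (∀ i, W i ≠ 0) ∧ (∀ i, N i ≠ 0) ∧ (∀ i, (W i).natDegree ≤ 2 * M) ∧
      (∀ i, (N i).natDegree ≤ 2 * M) ∧
      ∀ i, aeval (algebraMap K[X] (RatFunc K) (B.num.map (algebraMap ℂ K)) /
            algebraMap K[X] (RatFunc K) (B.denom.map (algebraMap ℂ K))) (W i) *
          algebraMap K[X] (RatFunc K)
            (N (i + 1) * wr (B.num.map (algebraMap ℂ K)) (B.denom.map (algebraMap ℂ K))) =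
        aeval (algebraMap K[X] (RatFunc K) (B.num.map (algebraMap ℂ K)) /
            algebraMap K[X] (RatFunc K) (B.denom.map (algebraMap ℂ K))) (N i) *
          algebraMap K[X] (RatFunc K) (W (i + 1) * (B.denom.map (algebraMap ℂ K)) ^ 2) := by
  obtain ⟨K, _, _, _, _, ρ, hρ₁, hρ₂⟩ := exists_ultra
  choose r' hr' using exists_eventually_eq hr
  have hinj := IsFractionRing.injective K[X] (RatFunc K)
  have hnum : ∀ m, (V m).num.natDegree ≤ M := fun m => (le_max_left _ _).trans (hV m)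
  have hden : ∀ m, (V m).denom.natDegree ≤ M := fun m => (le_max_right _ _).trans (hV m)
  set SP := seqPoly M (fun m => (V m).num) with hSP
  set SQ := seqPoly M (fun m => (V m).denom) with hSQ
  let P : ℕ → K[X] := fun i => (SP i).map ρ
  let Q : ℕ → K[X] := fun i => (SQ i).map ρ
  have hSPm : ∀ i m, (SP i).map (Pi.evalRingHom (fun _ => ℂ) m) = (V (m + i)).num :=
    fun i m => seqPoly_map hnum i m
  have hSQm : ∀ i m, (SQ i).map (Pi.evalRingHom (fun _ => ℂ) m) = (V (m + i)).denom :=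
    fun i m => seqPoly_map hden i m
  have hPd : ∀ i, (P i).natDegree ≤ M := fun i => natDegree_seqPoly_map ρ M _ i
  have hQd : ∀ i, (Q i).natDegree ≤ M := fun i => natDegree_seqPoly_map ρ M _ i
  have hwr : ∀ i, wr (P i) (Q i) ≠ 0 := by
    intro i h0
    rw [← map_wr, map_eq_zero_iff_eventually ρ hρ₂] at h0
    obtain ⟨m, hm⟩ := h0.exists
    rw [map_wr, hSPm, hSQm] at hm
    exact wr_num_denom (hVc _) hm
  have hQ0 : ∀ i, Q i ≠ 0 := by
    intro i h0
    apply hwr i
    rw [h0]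
    simp [wr]
  set B₁ := B.num.map (algebraMap ℂ K) with hB₁
  set B₂ := B.denom.map (algebraMap ℂ K) with hB₂
  have hB1 : 1 ≤ rdeg B := by omega
  have hwrB : wr B.num B.denom ≠ 0 := wr_num_denom hB1
  have hwrB' : wr B₁ B₂ ≠ 0 := by
    rw [hB₁, hB₂, ← map_wr, Polynomial.map_ne_zero_iff (algebraMap ℂ K).injective]
    exact hwrB
  set y : RatFunc K := algebraMap K[X] (RatFunc K) B₁ / algebraMap K[X] (RatFunc K) B₂ with hy
  have hyt : Transcendental K y := transcendental_of_wr hwrB'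
  -- the relation of the chain
  have hchain : ∀ i, aeval y (P i) / aeval y (Q i) =
      aeval (algebraMap K[X] (RatFunc K) (P (i + 1)) / algebraMap K[X] (RatFunc K) (Q (i + 1)))
        ((iter A (r' i)).num.map (algebraMap ℂ K)) /
      aeval (algebraMap K[X] (RatFunc K) (P (i + 1)) / algebraMap K[X] (RatFunc K) (Q (i + 1)))
        ((iter A (r' i)).denom.map (algebraMap ℂ K)) := by
    intro i
    set F := iter A (r' i) with hF
    have e₁ : hz M (P i) B₁ B₂ * hz (rdeg F) (F.denom.map (algebraMap ℂ K)) (P (i + 1)) (Q (i + 1)) =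
        hz M (Q i) B₁ B₂ * hz (rdeg F) (F.num.map (algebraMap ℂ K)) (P (i + 1)) (Q (i + 1)) := by
      let T : (ℕ → ℂ)[X] :=
        hz M (SP i) (B.num.map (Pi.constRingHom ℕ ℂ)) (B.denom.map (Pi.constRingHom ℕ ℂ)) *
          hz (rdeg F) (F.denom.map (Pi.constRingHom ℕ ℂ)) (SP (i + 1)) (SQ (i + 1)) -
        hz M (SQ i) (B.num.map (Pi.constRingHom ℕ ℂ)) (B.denom.map (Pi.constRingHom ℕ ℂ)) *
          hz (rdeg F) (F.num.map (Pi.constRingHom ℕ ℂ)) (SP (i + 1)) (SQ (i + 1))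
      have hT : T.map ρ = 0 := by
        rw [map_eq_zero_iff_eventually ρ hρ₂]
        filter_upwards [hr' i] with m hm
        simp only [T, Polynomial.map_sub, Polynomial.map_mul, map_hz, const_map_eval, hSPm, hSQm]
        rw [sub_eq_zero]
        refine hz_of_comp hB1 (hVc _) (hV _) le_rfl ?_
        rw [h (m + i), hm, hF]
        rfl
      simp only [T, Polynomial.map_sub, Polynomial.map_mul, map_hz, const_map ρ hρ₁] at hT
      exact sub_eq_zero.mp hT
    have hβ₂ : algebraMap K[X] (RatFunc K) B₂ ≠ 0 := by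
      refine algebraMap_ne_zero' ?_
      rw [hB₂, Polynomial.map_ne_zero_iff (algebraMap ℂ K).injective]
      exact B.denom_ne_zero
    have hq' : algebraMap K[X] (RatFunc K) (Q (i + 1)) ≠ 0 := algebraMap_ne_zero' (hQ0 _)
    have hFn : (F.num.map (algebraMap ℂ K)).natDegree ≤ rdeg F :=
      natDegree_map_le.trans (le_max_left _ _)
    have hFd : (F.denom.map (algebraMap ℂ K)).natDegree ≤ rdeg F :=
      natDegree_map_le.trans (le_max_right _ _)
    have hF0 : F.denom.map (algebraMap ℂ K) ≠ 0 :=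
      (Polynomial.map_ne_zero_iff (algebraMap ℂ K).injective).mpr F.denom_ne_zero
    have e₂ := congrArg (algebraMap K[X] (RatFunc K)) e₁
    rw [map_mul, map_mul, algebraMap_hz _ _ _ _ (hPd i) hβ₂, algebraMap_hz _ _ _ _ (hQd i) hβ₂,
      algebraMap_hz _ _ _ _ hFn hq', algebraMap_hz _ _ _ _ hFd hq'] at e₂
    rw [div_eq_div_iff (aeval_ne_zero hyt (hQ0 i))
      (aeval_ne_zero (transcendental_of_wr (hwr (i + 1))) hF0)]
    refine mul_left_cancel₀ (mul_ne_zero (pow_ne_zero M hβ₂) (pow_ne_zero (rdeg F) hq')) ?_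
    linear_combination e₂
  -- the derivation
  obtain ⟨δ, hδ, hδ0⟩ : ∃ δ : Derivation ℤ K K, (∀ a : ℂ, δ (algebraMap ℂ K a) = 0) ∧
      dw δ (P 0) (Q 0) ≠ 0 := by
    refine exists_dw_ne_zero _ _ (hQ0 0) ?_
    intro f₁ f₂ hf₂ heq
    have h1 : (SP 0 * f₂.map (Pi.constRingHom ℕ ℂ) - SQ 0 * f₁.map (Pi.constRingHom ℕ ℂ)).map ρ =
        0 := by
      rw [Polynomial.map_sub, Polynomial.map_mul, Polynomial.map_mul, const_map ρ hρ₁,
        const_map ρ hρ₁, sub_eq_zero]
      exact heq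
    rw [map_eq_zero_iff_eventually ρ hρ₂] at h1
    have h2 : ∀ᶠ m in (hyperfilter ℕ : Filter ℕ), V m =
        algebraMap ℂ[X] (RatFunc ℂ) f₁ / algebraMap ℂ[X] (RatFunc ℂ) f₂ := by
      filter_upwards [h1] with m hm
      rw [Polynomial.map_sub, Polynomial.map_mul, Polynomial.map_mul, const_map_eval,
        const_map_eval, hSPm, hSQm, sub_eq_zero, add_zero] at hm
      rw [← RatFunc.num_div_denom (V m), div_eq_div_iff
        (algebraMap_ne_zero' (V m).denom_ne_zero) (algebraMap_ne_zero' hf₂), ← map_mul,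
        ← map_mul, hm, mul_comm]
    obtain ⟨m₁, hm₁⟩ := h2.exists
    have h3 : ∀ᶠ m in (hyperfilter ℕ : Filter ℕ), m ≠ m₁ :=
      hyperfilter_le_cofinite (by simp [Filter.mem_cofinite])
    obtain ⟨m₂, hm₂, hm₂'⟩ := (h2.and h3).exists
    rcases lt_or_gt_of_ne hm₂' with hlt | hlt
    · exact hne _ _ hlt (hm₂.trans hm₁.symm)
    · exact hne _ _ hlt (hm₁.trans hm₂.symm)
  have hmapδ : ∀ b : ℂ[X], mapD δ (b.map (algebraMap ℂ K)) = 0 := by
    intro b
    ext n
    rw [coeff_mapD, coeff_map, hδ, coeff_zero]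
  have hstep := fun i => rel_step (L := RatFunc K) δ hδ B.num B.denom y hy B.denom_ne_zero hyt
    ((iter A (r' i)).num.map (algebraMap ℂ K)) ((iter A (r' i)).denom.map (algebraMap ℂ K))
    (hmapδ _) (hmapδ _)
    ((Polynomial.map_ne_zero_iff (algebraMap ℂ K).injective).mpr (iter A (r' i)).denom_ne_zero)
    (P i) (Q i) (P (i + 1)) (Q (i + 1)) (hQ0 i) (hQ0 (i + 1))
    (transcendental_of_wr (hwr (i + 1))) (hwr i) hwrB (hchain i)
  have hN : ∀ i, dw δ (P i) (Q i) ≠ 0 := by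
    intro i
    induction i with
    | zero => exact hδ0
    | succ i ih => exact (hstep i).2 ih
  exact ⟨K, inferInstance, inferInstance, inferInstance, inferInstance,
    fun i => wr (P i) (Q i), fun i => dw δ (P i) (Q i), hwr, hN,
    fun i => natDegree_wr_le (hPd i) (hQd i), fun i => natDegree_dw_le δ (hPd i) (hQd i),
    fun i => (hstep i).1⟩

end Pool.Agent.Helper43.Pak
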