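import Mathlib
import Pool.Agent.Helper43.Pak.ChainCore
import Pool.Agent.Helper42.Pak.PowForms

/-!
# The chain lemma
-/

set_option autoImplicit false

namespace Pool.Agent.Helper43.Pak

open Polynomial hiding comp
open Pool.Agent.Helper63.Pak (rdeg comp iter IsPow MobConj)

/-- chain lemma with bounded exponents -/
theorem chain_of_le (A B : RatFunc ℂ) (hB : 2 ≤ rdeg B) (V : ℕ → RatFunc ℂ) (r : ℕ → ℕ)
    (M R : ℕ) (hV : ∀ m, rdeg (V m) ≤ M) (hVc : ∀ m, 1 ≤ rdeg (V m)) (hr : ∀ m, r m ≤ R)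
    (h : ∀ m, comp (V m) B = comp (iter A (r m)) (V (m + 1))) :
    (∃ m m', m < m' ∧ V m = V m') ∨ IsPow B := by
  by_cases hne : ∃ m m', m < m' ∧ V m = V m'
  · exact Or.inl hne
  · right
    push Not at hne
    obtain ⟨K, _, _, _, _, W, N, hW, hN, hWd, hNd, hrel⟩ :=
      exists_forms A B hB V r M R hV hVc hr h hne
    exact Pool.Agent.Helper42.Pak.pow_of_forms B hB W N hW hN (2 * M) hWd hNd hrel

end Pool.Agent.Helper43.Pak
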