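import Pool.Agent.Helper43.Pak.Chain
import Pool.Agent.Helper63.Pak.RARat

/-! The chain lemma in the form used by the last piece: the exponents `r m` are bounded by the
degrees, so `chain_of_le` applies. -/

namespace Pool.Agent.Helper63.Pak

/-- The chain lemma (a statement). -/
def ChainLemma : Prop := ∀ (A B : RatFunc ℂ), 2 ≤ rdeg A → 2 ≤ rdeg B →
  ∀ (V : ℕ → RatFunc ℂ) (r : ℕ → ℕ) (M : ℕ), (∀ m, 1 ≤ rdeg (V m)) → (∀ m, rdeg (V m) ≤ M) →
  (∀ m, comp (V m) B = comp (iter A (r m)) (V (m + 1))) → (∃ m m', m < m' ∧ V m = V m') ∨ IsPow B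

theorem chainLemma : ChainLemma := by
  intro A B hA hB V r M hVc hV h
  refine Pool.Agent.Helper43.Pak.chain_of_le A B hB V r M (M * rdeg B) hV hVc (fun m => ?_) h
  have h1 := congrArg rdeg (h m)
  rw [rdeg_comp, rdeg_comp, rdeg_iter] at h1
  have h2 : r m < 2 ^ r m := Nat.lt_two_pow_self
  have h3 : 2 ^ r m ≤ rdeg A ^ r m := Nat.pow_le_pow_left hA _
  have h4 : rdeg A ^ r m ≤ rdeg A ^ r m * rdeg (V (m + 1)) :=
    Nat.le_mul_of_pos_right _ (by have := hVc (m + 1); omega)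
  have h5 : rdeg (V m) * rdeg B ≤ M * rdeg B := Nat.mul_le_mul_right _ (hV m)
  omega

end Pool.Agent.Helper63.Pak
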